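import Pool.Agent.Helper79.PM.Expect

/-!
# Project PM, module PM-31: thinning of the columns
-/

set_option autoImplicit false

namespace Pool.Agent.Helper35.PM

open Finset
open scoped Classical

/-- PM-31: thinning of the columns. -/
theorem exists_thinning {V : Type} [Fintype V] (A B : Finset V) (good : V → V → Prop)
    (near : V → V → Prop) (m q : ℕ) (hm : 0 < m) (hq : 0 < q)
    (hnear : ∀ a ∈ A, (A.filter fun a' => near a a').card ≤ m)
    (hgood : ∀ b ∈ B, 8 * m * q ≤ (A.filter fun a => good a b).card) :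
    ∃ (A' : Finset V) (S : V → Finset V), A' ⊆ A ∧
      (∀ a ∈ A', ∀ a' ∈ A', a ≠ a' → ¬ near a a') ∧
      (∀ b ∈ B, S b ⊆ A' ∧ (S b).card ≤ q ∧ ∀ a ∈ S b, good a b) ∧
      q * B.card ≤ 8 * ∑ b ∈ B, (S b).card := by
  -- the blocks
  have hf : ∀ b : V, ∃ f : Fin q × Fin (8 * m) → V, b ∈ B →
      (Function.Injective f ∧ ∀ z, f z ∈ A ∧ good (f z) b) := by
    intro b
    by_cases hb : b ∈ B
    · have h1 : Fintype.card (Fin q × Fin (8 * m)) ≤
          Fintype.card {a // a ∈ A.filter fun a => good a b} := by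
        rw [Fintype.card_prod, Fintype.card_fin, Fintype.card_fin, Fintype.card_coe]
        calc q * (8 * m) = 8 * m * q := by ring
          _ ≤ _ := hgood b hb
      obtain ⟨e⟩ := Function.Embedding.nonempty_of_card_le h1
      refine ⟨fun z => (e z).1, fun _ => ⟨?_, ?_⟩⟩
      · intro z z' h
        exact e.injective (Subtype.ext h)
      · intro z
        exact Finset.mem_filter.1 (e z).2
    · exact ⟨fun _ => b, fun h => absurd h hb⟩
  choose f hf using hf
  set T : V → Fin q × Fin (8 * m) → Finset V := fun b z =>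
    (Finset.univ.image fun i => f b (z.1, i)) ∪ A.filter (fun a' => near (f b z) a') with hT
  have hfT : ∀ b z, f b z ∈ T b z := by
    intro b z
    rw [hT]
    exact Finset.mem_union_left _ (Finset.mem_image.2 ⟨z.2, Finset.mem_univ _, rfl⟩)
  have hTA : ∀ b ∈ B, ∀ z, T b z ⊆ A := by
    intro b hb z
    rw [hT]
    apply Finset.union_subset
    · intro a ha
      obtain ⟨i, _, rfl⟩ := Finset.mem_image.1 ha
      exact ((hf b hb).2 _).1
    · exact Finset.filter_subset _ _
  have hTc : ∀ b ∈ B, ∀ z, (T b z).card ≤ 9 * m := by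
    intro b hb z
    rw [hT]
    refine (Finset.card_union_le _ _).trans ?_
    have h1 : (Finset.univ.image fun i => f b (z.1, i)).card ≤ 8 * m := by
      refine Finset.card_image_le.trans ?_
      simp
    have h2 := hnear (f b z) ((hf b hb).2 z).1
    omega
  set Fl : V → Finset V → Finset (Fin q × Fin (8 * m)) := fun b R =>
    Finset.univ.filter fun z => R ∩ T b z = {f b z} with hFl
  -- expectation
  set ρ : ℝ := 1 / (32 * m) with hρ
  have hm' : (0 : ℝ) < m := by exact_mod_cast hm
  have hm1 : (1 : ℝ) ≤ m := by exact_mod_cast hm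
  have hρ0 : 0 < ρ := by positivity
  have hρ1 : ρ ≤ 1 / 32 := by
    rw [hρ]
    apply one_div_le_one_div_of_le (by norm_num)
    linarith
  have hEx : ∀ b ∈ B, ∀ z, ρ * (23 / 32) ≤
      Ex ρ A (fun R => if R ∩ T b z = {f b z} then 1 else 0) := by
    intro b hb z
    rw [Ex_inter_eq ρ A {f b z} (T b z) (Finset.singleton_subset_iff.2 (hfT b z)) (hTA b hb z),
      Finset.card_singleton, pow_one]
    apply mul_le_mul_of_nonneg_left _ hρ0.le
    have h1 : (T b z \ {f b z}).card ≤ 9 * m := (Finset.card_le_card Finset.sdiff_subset).trans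
      (hTc b hb z)
    have h2 : 1 + ((T b z \ {f b z}).card : ℝ) * (-ρ) ≤ (1 + (-ρ)) ^ (T b z \ {f b z}).card :=
      one_add_mul_le_pow (by linarith) _
    have h3 : ((T b z \ {f b z}).card : ℝ) ≤ 9 * m := by exact_mod_cast h1
    have h4 : ((T b z \ {f b z}).card : ℝ) * ρ ≤ 9 / 32 := by
      calc ((T b z \ {f b z}).card : ℝ) * ρ ≤ (9 * m) * ρ := mul_le_mul_of_nonneg_right h3 hρ0.le
        _ = 9 / 32 := by rw [hρ]; field_simp
    have h5 : (1 - ρ) = 1 + (-ρ) := by ring
    rw [h5]
    linarith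
  have hE : (B.card : ℝ) * ((q * (8 * m) : ℕ) : ℝ) * (ρ * (23 / 32)) ≤
      Ex ρ A (fun R => ((∑ b ∈ B, (Fl b R).card : ℕ) : ℝ)) := by
    have h1 : (fun R : Finset V => ((∑ b ∈ B, (Fl b R).card : ℕ) : ℝ)) =
        fun R => ∑ b ∈ B, ∑ z ∈ (Finset.univ : Finset (Fin q × Fin (8 * m))),
          (if R ∩ T b z = {f b z} then (1 : ℝ) else 0) := by
      funext R
      push_cast
      refine Finset.sum_congr rfl (fun b _ => ?_)
      rw [hFl]
      simp only
      rw [Finset.card_filter]
      push_cast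
      rfl
    rw [h1, Ex_sum]
    have h2 : ∀ b ∈ B, ((q * (8 * m) : ℕ) : ℝ) * (ρ * (23 / 32)) ≤
        Ex ρ A (fun R => ∑ z ∈ (Finset.univ : Finset (Fin q × Fin (8 * m))),
          (if R ∩ T b z = {f b z} then (1 : ℝ) else 0)) := by
      intro b hb
      rw [Ex_sum]
      have h3 : ∑ z ∈ (Finset.univ : Finset (Fin q × Fin (8 * m))), (ρ * (23 / 32)) ≤
          ∑ z ∈ (Finset.univ : Finset (Fin q × Fin (8 * m))),
          Ex ρ A (fun R => if R ∩ T b z = {f b z} then (1 : ℝ) else 0) :=
        Finset.sum_le_sum (fun z _ => hEx b hb z)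
      rw [Finset.sum_const, Finset.card_univ, Fintype.card_prod, Fintype.card_fin,
        Fintype.card_fin, nsmul_eq_mul] at h3
      exact h3
    calc (B.card : ℝ) * ((q * (8 * m) : ℕ) : ℝ) * (ρ * (23 / 32))
        = ∑ b ∈ B, ((q * (8 * m) : ℕ) : ℝ) * (ρ * (23 / 32)) := by
          rw [Finset.sum_const, nsmul_eq_mul]; ring
      _ ≤ _ := Finset.sum_le_sum h2
  obtain ⟨R, hR, hRE⟩ := exists_ge_Ex ρ hρ0.le (by linarith) A
    (fun R => ((∑ b ∈ B, (Fl b R).card : ℕ) : ℝ))
  refine ⟨R.filter fun a => ∀ a' ∈ R, a' ≠ a → ¬ near a a', fun b => (Fl b R).image (f b),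
    (Finset.filter_subset _ _).trans hR, ?_, ?_, ?_⟩
  · intro a ha a' ha' hne
    rw [Finset.mem_filter] at ha ha'
    exact ha.2 a' ha'.1 (Ne.symm hne)
  · intro b hb
    have hmem : ∀ z ∈ Fl b R, f b z ∈ R ∧ ∀ c ∈ R, c ∈ T b z → c = f b z := by
      intro z hz
      have h1 := (Finset.mem_filter.1 hz).2
      refine ⟨?_, ?_⟩
      · have : f b z ∈ R ∩ T b z := by rw [h1]; exact Finset.mem_singleton_self _
        exact (Finset.mem_inter.1 this).1
      · intro c hc hcT
        have : c ∈ R ∩ T b z := Finset.mem_inter.2 ⟨hc, hcT⟩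
        rw [h1] at this
        exact Finset.mem_singleton.1 this
    refine ⟨?_, ?_, ?_⟩
    · intro a ha
      obtain ⟨z, hz, rfl⟩ := Finset.mem_image.1 ha
      obtain ⟨h1, h2⟩ := hmem z hz
      rw [Finset.mem_filter]
      refine ⟨h1, fun a' ha' hne hn => hne (h2 a' ha' ?_)⟩
      rw [hT]
      exact Finset.mem_union_right _ (Finset.mem_filter.2 ⟨hR ha', hn⟩)
    · refine Finset.card_image_le.trans ?_
      calc (Fl b R).card ≤ (Finset.univ : Finset (Fin q)).card := by
            apply Finset.card_le_card_of_injOn (fun z => z.1)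
            · intro z _; exact Finset.mem_coe.2 (Finset.mem_univ _)
            · intro z hz z' hz' h
              simp only at h
              obtain ⟨h1, h2⟩ := hmem z hz
              obtain ⟨h3, h4⟩ := hmem z' hz'
              apply (hf b hb).1
              symm
              apply h2 _ h3
              rw [hT]
              refine Finset.mem_union_left _ (Finset.mem_image.2 ⟨z'.2, Finset.mem_univ _, ?_⟩)
              rw [h]
        _ = q := by simp
    · intro a ha
      obtain ⟨z, _, rfl⟩ := Finset.mem_image.1 ha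
      exact ((hf b hb).2 z).2
  · have h1 : ∀ b ∈ B, ((Fl b R).image (f b)).card = (Fl b R).card := by
      intro b hb
      exact Finset.card_image_of_injective _ (hf b hb).1
    rw [Finset.sum_congr rfl h1]
    have h2 : (B.card : ℝ) * ((q * (8 * m) : ℕ) : ℝ) * (ρ * (23 / 32)) ≤
        ((∑ b ∈ B, (Fl b R).card : ℕ) : ℝ) := hE.trans hRE
    have h3 : (B.card : ℝ) * ((q * (8 * m) : ℕ) : ℝ) * (ρ * (23 / 32)) =
        (q * B.card) * (23 / 128) := by
      rw [hρ]
      push_cast
      field_simp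
      ring
    rw [h3] at h2
    have h4 : ((q * B.card : ℕ) : ℝ) ≤ ((8 * ∑ b ∈ B, (Fl b R).card : ℕ) : ℝ) := by
      push_cast at h2 ⊢
      have : (0 : ℝ) ≤ (q : ℝ) * B.card := by positivity
      linarith
    exact_mod_cast h4

end Pool.Agent.Helper35.PM
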