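import Pool.Agent.Helper35.PM.Defs2

/-!
# Project PM, module PM-25: disjoint triples in a leaf
-/

set_option autoImplicit false

namespace Pool.Agent.Helper35.PM

open Finset
open scoped Classical

/-- Facts on members of `GTP`. -/
theorem gtp96 {V : Type} {s : Sys V} {κ : ℕ} {Y Z : Finset V} {r : V × V}
    (h : r ∈ s.GTP κ Y Z) :
    r.1 ∈ Y ∧ r.2 ∈ s.A ∧ r.2 ∈ s.S r.1 ∧ r.1 ∈ s.N r.2 ∧ (s.N r.2 ∩ (Y ∪ Z)).card = 3 ∧
      s.N r.2 ∩ (Y ∪ Z) ⊆ s.Free (Y ∪ Z) ∧ (s.N r.2 ∩ Y).card = 2 ∧ s.Clean (Y ∪ Z) r.1 ∧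
      ¬ s.Near Y Z r.1 r.2 ∧ ¬ s.Lossy Y Z r.1 r.2 ∧ ¬ s.Rot κ (Y ∪ Z) r.2 := by
  unfold Sys.GTP Sys.TP at h
  rw [Finset.mem_filter, Finset.mem_filter, Finset.mem_product] at h
  obtain ⟨⟨⟨h1, h2⟩, h3, h4, h5, h6, h7⟩, h8, h9, h10, h11⟩ := h
  exact ⟨h1, h2, h3, h4, h5, h6, h7, h8, h9, h10, h11⟩

theorem count96 {V : Type} {s : Sys V} {κ : ℕ} {Y Z P : Finset V} {T : Finset (V × V)}
    (hT : T ⊆ s.GTP κ Y Z) (h1 : ∀ r ∈ T, s.N r.2 ∩ (Y ∪ Z) ⊆ P) (v : V) :
    (T.filter fun r => v ∈ s.N r.2 ∩ (Y ∪ Z)).card ≤ 2 * P.card := by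
  have hxP : ∀ r ∈ T, r.1 ∈ P := by
    intro r hr
    obtain ⟨g1, _, _, g4, _⟩ := gtp96 (hT hr)
    exact h1 r hr (Finset.mem_inter.2 ⟨g4, Finset.mem_union_left _ g1⟩)
  have hA : (T.filter fun r => v ∈ s.N r.2 ∩ (Y ∪ Z) ∧ r.1 ≠ v).card ≤ P.card := by
    apply Finset.card_le_card_of_injOn (fun r => r.1)
    · intro r hr
      exact hxP r (Finset.mem_filter.1 hr).1
    · intro r hr r' hr' h
      rw [Finset.mem_coe, Finset.mem_filter] at hr hr'
      simp only at h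
      obtain ⟨g1, g2, g3, g4, g5, g6, g7, g8, _⟩ := gtp96 (hT hr.1)
      obtain ⟨k1, k2, k3, k4, k5, k6, k7, k8, _⟩ := gtp96 (hT hr'.1)
      by_contra hne
      have ha : r.2 ≠ r'.2 := fun h2 => hne (Prod.ext h h2)
      rw [← h] at k3
      have := g8 r.2 g3 r'.2 k3 ha
      have hv : v ∈ s.N r.2 ∩ s.N r'.2 ∩ (Y ∪ Z) := by
        have e1 := Finset.mem_inter.1 hr.2.1
        have e2 := Finset.mem_inter.1 hr'.2.1
        exact Finset.mem_inter.2 ⟨Finset.mem_inter.2 ⟨e1.1, e2.1⟩, e1.2⟩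
      have := Finset.mem_singleton.1 (this hv)
      exact hr.2.2 this.symm
  have hB : (T.filter fun r => v ∈ s.N r.2 ∩ (Y ∪ Z) ∧ r.1 = v).card ≤ P.card := by
    have hne : ∀ r ∈ T, ∃ u, u ∈ (s.N r.2 ∩ (Y ∪ Z)).erase r.1 := by
      intro r hr
      obtain ⟨g1, g2, g3, g4, g5, _⟩ := gtp96 (hT hr)
      have : ((s.N r.2 ∩ (Y ∪ Z)).erase r.1).Nonempty := by
        rw [← Finset.card_pos, Finset.card_erase_of_mem
          (Finset.mem_inter.2 ⟨g4, Finset.mem_union_left _ g1⟩), g5]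
        norm_num
      exact this
    have hne' : ∀ r : V × V, ∃ u, r ∈ T → u ∈ (s.N r.2 ∩ (Y ∪ Z)).erase r.1 := by
      intro r
      by_cases hr : r ∈ T
      · obtain ⟨u, hu⟩ := hne r hr
        exact ⟨u, fun _ => hu⟩
      · exact ⟨r.1, fun h => absurd h hr⟩
    choose u hu using hne'
    apply Finset.card_le_card_of_injOn u
    · intro r hr
      have hr' := (Finset.mem_filter.1 hr).1
      exact h1 r hr' (Finset.mem_of_mem_erase (hu r hr'))
    · intro r hr r' hr' h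
      rw [Finset.mem_coe, Finset.mem_filter] at hr hr'
      obtain ⟨g1, g2, g3, g4, g5, g6, g7, g8, _⟩ := gtp96 (hT hr.1)
      obtain ⟨k1, k2, k3, k4, k5, k6, k7, k8, _⟩ := gtp96 (hT hr'.1)
      have h12 : r.1 = r'.1 := hr.2.2.trans hr'.2.2.symm
      by_contra hne2
      have ha : r.2 ≠ r'.2 := fun h2 => hne2 (Prod.ext h12 h2)
      rw [← h12] at k3
      have := g8 r.2 g3 r'.2 k3 ha
      have e1 := hu r hr.1
      have e2 := hu r' hr'.1
      rw [← h] at e2
      rw [Finset.mem_erase, Finset.mem_inter] at e1 e2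
      have := Finset.mem_singleton.1 (this
        (Finset.mem_inter.2 ⟨Finset.mem_inter.2 ⟨e1.2.1, e2.2.1⟩, e1.2.2⟩))
      exact e1.1 this
  have hsub : (T.filter fun r => v ∈ s.N r.2 ∩ (Y ∪ Z)) ⊆
      (T.filter fun r => v ∈ s.N r.2 ∩ (Y ∪ Z) ∧ r.1 ≠ v) ∪
      (T.filter fun r => v ∈ s.N r.2 ∩ (Y ∪ Z) ∧ r.1 = v) := by
    intro r hr
    rw [Finset.mem_filter] at hr
    rw [Finset.mem_union, Finset.mem_filter, Finset.mem_filter]
    by_cases h : r.1 = v
    · right; exact ⟨hr.1, hr.2, h⟩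
    · left; exact ⟨hr.1, hr.2, h⟩
  refine (Finset.card_le_card hsub).trans ((Finset.card_union_le _ _).trans ?_)
  omega

/-- PM-25: disjoint triples in the leaf. -/
theorem exists_disjoint_triples {V : Type} [Fintype V] (s : Sys V) (Λ D η : ℝ) (q κ : ℕ)
    (hs : s.OK Λ D η q)
    (Y Z P : Finset V) (hY : Y ⊆ s.B) (hZ : Z ⊆ s.B \ Y) (T : Finset (V × V))
    (hT : T ⊆ s.GTP κ Y Z) (h1 : ∀ r ∈ T, s.N r.2 ∩ (Y ∪ Z) ⊆ P)
    (m : ℕ) (h2 : 6 * m * P.card ≤ T.card) (hTne : T.Nonempty) :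
    ∃ f : Fin m → V × V, (∀ i, f i ∈ T) ∧
      ∀ i j, i ≠ j → Disjoint (s.N (f i).2 ∩ (Y ∪ Z)) (s.N (f j).2 ∩ (Y ∪ Z)) := by
  have hP : 0 < P.card := by
    obtain ⟨r, hr⟩ := hTne
    obtain ⟨g1, g2, g3, g4, g5, _⟩ := gtp96 (hT hr)
    have := Finset.card_le_card (h1 r hr)
    omega
  have key : ∀ j ≤ m, ∃ f : Fin j → V × V, (∀ i, f i ∈ T) ∧
      ∀ i j, i ≠ j → Disjoint (s.N (f i).2 ∩ (Y ∪ Z)) (s.N (f j).2 ∩ (Y ∪ Z)) := by
    intro j
    induction j with
    | zero => intro _; exact ⟨fun i => i.elim0, fun i => i.elim0, fun i => i.elim0⟩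
    | succ j ih =>
      intro hj
      obtain ⟨f, hf1, hf2⟩ := ih (by omega)
      set U : Finset V := Finset.univ.biUnion (fun i : Fin j => s.N (f i).2 ∩ (Y ∪ Z)) with hU
      have hUc : U.card ≤ 3 * j := by
        rw [hU]
        refine Finset.card_biUnion_le.trans ?_
        calc ∑ i : Fin j, (s.N (f i).2 ∩ (Y ∪ Z)).card = ∑ i : Fin j, 3 := by
              refine Finset.sum_congr rfl (fun i _ => ?_)
              exact (gtp96 (hT (hf1 i))).2.2.2.2.1
          _ = 3 * j := by simp [mul_comm]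
          _ ≤ 3 * j := le_refl _
      have hmeet : (T.filter fun r => ¬ Disjoint (s.N r.2 ∩ (Y ∪ Z)) U).card < T.card := by
        have hsub : (T.filter fun r => ¬ Disjoint (s.N r.2 ∩ (Y ∪ Z)) U) ⊆
            U.biUnion (fun v => T.filter fun r => v ∈ s.N r.2 ∩ (Y ∪ Z)) := by
          intro r hr
          rw [Finset.mem_filter, Finset.not_disjoint_iff] at hr
          obtain ⟨hr1, v, hv1, hv2⟩ := hr
          exact Finset.mem_biUnion.2 ⟨v, hv2, Finset.mem_filter.2 ⟨hr1, hv1⟩⟩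
        have h3 := Finset.card_le_card hsub
        have h4 : (U.biUnion (fun v => T.filter fun r => v ∈ s.N r.2 ∩ (Y ∪ Z))).card ≤
            U.card * (2 * P.card) :=
          Finset.card_biUnion_le_card_mul _ _ _ (fun v _ => count96 hT h1 v)
        have h5 : U.card * (2 * P.card) ≤ (3 * j) * (2 * P.card) := Nat.mul_le_mul_right _ hUc
        have h6 : 6 * (j + 1) * P.card ≤ 6 * m * P.card :=
          Nat.mul_le_mul_right _ (Nat.mul_le_mul_left _ hj)
        have h7 : (3 * j) * (2 * P.card) = 6 * j * P.card := by ring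
        have h8 : 6 * (j + 1) * P.card = 6 * j * P.card + 6 * P.card := by ring
        omega
      obtain ⟨r, hr1, hr2⟩ : ∃ r ∈ T, Disjoint (s.N r.2 ∩ (Y ∪ Z)) U := by
        by_contra hcon
        push Not at hcon
        have : (T.filter fun r => ¬ Disjoint (s.N r.2 ∩ (Y ∪ Z)) U) = T :=
          Finset.filter_true_of_mem hcon
        rw [this] at hmeet
        exact lt_irrefl _ hmeet
      have hdis : ∀ i : Fin j, Disjoint (s.N r.2 ∩ (Y ∪ Z)) (s.N (f i).2 ∩ (Y ∪ Z)) := by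
        intro i
        refine Finset.disjoint_of_subset_right ?_ hr2
        exact Finset.subset_biUnion_of_mem (fun i : Fin j => s.N (f i).2 ∩ (Y ∪ Z))
          (Finset.mem_univ i)
      refine ⟨Fin.snoc (α := fun _ => V × V) f r, ?_, ?_⟩
      · intro i
        refine Fin.lastCases ?_ (fun i => ?_) i
        · simpa using hr1
        · simpa using hf1 i
      · intro i i'
        refine Fin.lastCases ?_ (fun i => ?_) i
        · refine Fin.lastCases ?_ (fun i' => ?_) i'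
          · intro h; exact absurd rfl h
          · intro _; simpa using hdis i'
        · refine Fin.lastCases ?_ (fun i' => ?_) i'
          · intro _
            have := (hdis i).symm
            simpa using this
          · intro h
            have := hf2 i i' (fun h' => h (by rw [h']))
            simpa using this
  exact key m le_rfl

end Pool.Agent.Helper35.PM
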