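import Pool.Agent.Helper96.PM.LeafChoice
import Pool.Agent.Helper20.PM.Leaf

/-!
# Project PM, module PM-23: the choice of a leaf
-/

set_option autoImplicit false

namespace Pool.Agent.Helper35.PM

open Finset
open scoped Classical

/-- PM-23: the choice of a leaf. -/
theorem leaf_choice (κ : ℕ) (M' : ℝ) (hM' : 0 < M') : ∃ M : ℝ, 0 < M ∧
    ∀ (V : Type) [Fintype V] (s : Sys V) (Λ D η : ℝ) (q : ℕ), s.OK Λ D η q →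
      ∀ Y ⊆ s.B, ∀ Z ⊆ s.B \ Y, M * (Y ∪ Z).card < (s.GTP κ Y Z).card →
        ∃ (P M₁ : Finset V) (T : Finset (V × V)), M₁ ⊆ P ∧ P ⊆ Y ∪ Z ∧ T ⊆ s.GTP κ Y Z ∧
          (∀ X₁ X₂, IsSep (s.QG (Y ∪ Z)) (Y ∪ Z) X₁ X₂ → (X₁ ∩ X₂).card < κ →
            P ⊆ X₁ ∨ P ⊆ X₂) ∧
          (∀ r ∈ T, s.N r.2 ∩ (Y ∪ Z) ⊆ M₁) ∧
          (∀ r ∈ T, 8 * (((s.own Y r.1) ∩ s.Act (Y ∪ Z)).filter fun a =>
            ¬ s.N a ∩ (Y ∪ Z) ⊆ M₁).card ≤ (s.own Y r.1).card) ∧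
          M' * P.card < T.card :=
  leaf_choice96 κ (leaf_lemma κ) M' hM'

end Pool.Agent.Helper35.PM
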