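import Pool.Agent.Helper96.PM.Disj

/-!
# Project PM, module PM-24: many edges in the leaf
-/

set_option autoImplicit false

namespace Pool.Agent.Helper35.PM

open Finset
open scoped Classical

theorem free96 {V : Type} {s : Sys V} {X X' : Finset V} {z : V} (h : z ∈ s.Free X)
    (hsub : X' ⊆ X) (hz : z ∈ X') : z ∈ s.Free X' := by
  unfold Sys.Free at *
  rw [Finset.mem_filter] at *
  exact ⟨hz, Finset.disjoint_of_subset_right hsub h.2⟩

/-- The column of a triple is an active column of `Y`, owned by `x`. -/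
theorem mem_own96 {V : Type} {s : Sys V} {κ : ℕ} {Y Z : Finset V} {r : V × V}
    (h : r ∈ s.GTP κ Y Z) : r.2 ∈ s.own Y r.1 := by
  obtain ⟨g1, g2, g3, g4, g5, g6, g7, g8, _⟩ := gtp96 h
  unfold Sys.own Sys.Act
  rw [Finset.mem_filter, Finset.mem_filter]
  refine ⟨⟨g2, g7, ?_, r.1, Finset.mem_inter.2 ⟨g4, g1⟩, g3⟩, g3⟩
  intro z hz
  rw [Finset.mem_inter] at hz
  exact free96 (g6 (Finset.mem_inter.2 ⟨hz.1, Finset.mem_union_left _ hz.2⟩))
    Finset.subset_union_left hz.2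

/-- The degree of the owner. -/
theorem deg96 {V : Type} [Fintype V] (s : Sys V) (Λ D η : ℝ) (q κ : ℕ) (hs : s.OK Λ D η q)
    (Y Z P M₁ : Finset V) (hY : Y ⊆ s.B) (hZ : Z ⊆ s.B \ Y)
    (hM : M₁ ⊆ P) (r : V × V) (hr : r ∈ s.GTP κ Y Z)
    (h2 : 8 * (((s.own Y r.1) ∩ s.Act (Y ∪ Z)).filter fun a =>
            ¬ s.N a ∩ (Y ∪ Z) ⊆ M₁).card ≤ (s.own Y r.1).card) :
    5 * (s.own Y r.1).card ≤ 8 * ((P.filter fun y => (s.QG (Y ∪ Z)).Adj r.1 y).card + 1) := by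
  obtain ⟨g1, g2, g3, g4, g5, g6, g7, g8, g9, g10, _⟩ := gtp96 hr
  set x := r.1 with hx
  set a := r.2 with ha
  set Out := ((s.own Y x) ∩ s.Act (Y ∪ Z)).filter fun a => ¬ s.N a ∩ (Y ∪ Z) ⊆ M₁ with hOut
  have hown : ∀ a' ∈ s.own Y x, a' ∈ s.A ∧ (s.N a' ∩ Y).card = 2 ∧ s.N a' ∩ Y ⊆ s.Free Y ∧
      a' ∈ s.S x ∧ x ∈ s.N a' ∩ Y := by
    intro a' h
    unfold Sys.own Sys.Act at h
    rw [Finset.mem_filter, Finset.mem_filter] at h
    obtain ⟨⟨e1, e2, e3, _⟩, e4⟩ := h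
    exact ⟨e1, e2, e3, e4, Finset.mem_inter.2 ⟨(hs.own x (hY g1) a' e4).2.1, g1⟩⟩
  have hpart : ∀ a' : V, ∃ y, a' ∈ s.own Y x → y ≠ x ∧ s.N a' ∩ Y = {x, y} := by
    intro a'
    by_cases h : a' ∈ s.own Y x
    · obtain ⟨e1, e2, e3, e4, e5⟩ := hown a' h
      have h1 : ((s.N a' ∩ Y).erase x).card = 1 := by rw [Finset.card_erase_of_mem e5, e2]
      obtain ⟨y, hy⟩ := Finset.card_eq_one.1 h1
      refine ⟨y, fun _ => ⟨?_, ?_⟩⟩
      · have : y ∈ (s.N a' ∩ Y).erase x := by rw [hy]; exact Finset.mem_singleton_self _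
        exact (Finset.mem_erase.1 this).1
      · rw [← Finset.insert_erase e5, hy]
    · exact ⟨x, fun h' => absurd h' h⟩
  choose u hu using hpart
  -- the good columns
  set Gd := (((s.own Y x).erase a) \ s.hit Y Z x a) \ Out with hGd
  have hgood : ∀ a' ∈ Gd, u a' ∈ P ∧ (s.QG (Y ∪ Z)).Adj x (u a') ∧ a' ∈ s.S x ∧
      u a' ∈ s.N a' ∧ u a' ≠ x ∧ u a' ∈ Y := by
    intro a' h
    rw [hGd, Finset.mem_sdiff, Finset.mem_sdiff, Finset.mem_erase] at h
    obtain ⟨⟨⟨hne, ho⟩, hnh⟩, hno⟩ := h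
    obtain ⟨e1, e2, e3, e4, e5⟩ := hown a' ho
    obtain ⟨f1, f2⟩ := hu a' ho
    have hnh' : ∀ z ∈ Z \ s.N a, ¬ (z ∈ s.N a' ∨ ∃ y ∈ (s.N a' ∩ Y).erase x, z ∈ s.Bk y) := by
      intro z hz hcon
      apply hnh
      unfold Sys.hit
      rw [Finset.mem_filter]
      exact ⟨ho, z, hz, hcon⟩
    have huY : u a' ∈ s.N a' ∩ Y := by
      rw [f2]; exact Finset.mem_insert_of_mem (Finset.mem_singleton_self _)
    have huE : u a' ∈ (s.N a' ∩ Y).erase x := Finset.mem_erase.2 ⟨f1, huY⟩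
    have hNZ : ∀ z ∈ s.N a', z ∉ Z := by
      intro z hz hzZ
      by_cases hza : z ∈ s.N a
      · have h3 := g8 a g3 a' e4 (Ne.symm hne)
          (Finset.mem_inter.2 ⟨Finset.mem_inter.2 ⟨hza, hz⟩, Finset.mem_union_right _ hzZ⟩)
        rw [Finset.mem_singleton] at h3
        have h4 := (Finset.mem_sdiff.1 (hZ hzZ)).2
        rw [h3] at h4
        exact h4 g1
      · exact hnh' z (Finset.mem_sdiff.2 ⟨hzZ, hza⟩) (Or.inl hz)
    have hNX : s.N a' ∩ (Y ∪ Z) = {x, u a'} := by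
      rw [← f2]
      ext z
      rw [Finset.mem_inter, Finset.mem_inter, Finset.mem_union]
      constructor
      · rintro ⟨h3, h4 | h4⟩
        · exact ⟨h3, h4⟩
        · exact absurd h4 (hNZ z h3)
      · rintro ⟨h3, h4⟩
        exact ⟨h3, Or.inl h4⟩
    have hxF : x ∈ s.Free (Y ∪ Z) :=
      g6 (Finset.mem_inter.2 ⟨g4, Finset.mem_union_left _ g1⟩)
    have huF : u a' ∈ s.Free (Y ∪ Z) := by
      have h3 := e3 huY
      unfold Sys.Free at h3 ⊢
      rw [Finset.mem_filter] at h3 ⊢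
      refine ⟨Finset.mem_union_left _ h3.1, ?_⟩
      rw [Finset.disjoint_union_right]
      refine ⟨h3.2, ?_⟩
      rw [Finset.disjoint_left]
      intro z hz hzZ
      by_cases hza : z ∈ s.N a
      · apply g9
        exact ⟨a', ho, u a', huE, z, Finset.mem_inter.2 ⟨hza, hzZ⟩, hs.back_adj _ _ hz⟩
      · exact hnh' z (Finset.mem_sdiff.2 ⟨hzZ, hza⟩) (Or.inr ⟨u a', huE, hz⟩)
    have hAct : a' ∈ s.Act (Y ∪ Z) := by
      unfold Sys.Act
      rw [Finset.mem_filter, hNX]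
      refine ⟨e1, Finset.card_pair (Ne.symm f1), ?_, x, Finset.mem_insert_self _ _, e4⟩
      intro z hz
      rw [Finset.mem_insert, Finset.mem_singleton] at hz
      rcases hz with rfl | rfl
      · exact hxF
      · exact huF
    refine ⟨?_, ⟨Ne.symm f1, a', hAct, hNX⟩, e4, (Finset.mem_inter.1 huY).1, f1,
      (Finset.mem_inter.1 huY).2⟩
    by_contra hnP
    apply hno
    rw [hOut, Finset.mem_filter]
    refine ⟨Finset.mem_inter.2 ⟨ho, hAct⟩, fun hsub => hnP (hM (hsub ?_))⟩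
    rw [hNX]
    exact Finset.mem_insert_of_mem (Finset.mem_singleton_self _)
  have hinj : Gd.card ≤ (P.filter fun y => (s.QG (Y ∪ Z)).Adj x y).card := by
    apply Finset.card_le_card_of_injOn u
    · intro a' h
      obtain ⟨e1, e2, _⟩ := hgood a' h
      exact Finset.mem_coe.2 (Finset.mem_filter.2 ⟨e1, e2⟩)
    · intro a1 h1 a2 h2 h12
      obtain ⟨_, _, e3, e4, e5, e6⟩ := hgood a1 h1
      obtain ⟨_, _, f3, f4, f5, f6⟩ := hgood a2 h2
      by_contra hne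
      rw [← h12] at f4
      have h3 := g8 a1 e3 a2 f3 hne
        (Finset.mem_inter.2 ⟨Finset.mem_inter.2 ⟨e4, f4⟩, Finset.mem_union_left _ e6⟩)
      exact e5 (Finset.mem_singleton.1 h3)
  have hcard : (s.own Y x).card ≤ Gd.card + 1 + (s.hit Y Z x a).card + Out.card := by
    have h3 := Finset.le_card_sdiff Out (((s.own Y x).erase a) \ s.hit Y Z x a)
    have h4 := Finset.le_card_sdiff (s.hit Y Z x a) ((s.own Y x).erase a)
    have h5 := Finset.pred_card_le_card_erase (s := s.own Y x) (a := a)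
    rw [← hGd] at h3
    omega
  have hhit : 4 * (s.hit Y Z x a).card ≤ (s.own Y x).card := by
    unfold Sys.Lossy at g10
    omega
  omega

/-- PM-24: many edges in the leaf. -/
theorem ePairs_ge {V : Type} [Fintype V] (s : Sys V) (Λ D η : ℝ) (q κ : ℕ) (hs : s.OK Λ D η q)
    (Y Z P M₁ : Finset V) (hY : Y ⊆ s.B) (hZ : Z ⊆ s.B \ Y) (T : Finset (V × V))
    (hM : M₁ ⊆ P) (hT : T ⊆ s.GTP κ Y Z)
    (h1 : ∀ r ∈ T, s.N r.2 ∩ (Y ∪ Z) ⊆ M₁)
    (h2 : ∀ r ∈ T, 8 * (((s.own Y r.1) ∩ s.Act (Y ∪ Z)).filter fun a =>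
            ¬ s.N a ∩ (Y ∪ Z) ⊆ M₁).card ≤ (s.own Y r.1).card) :
    5 * T.card ≤ 8 * (ePairs (s.QG (Y ∪ Z)) P P + P.card) := by
  set O := T.image Prod.fst with hO
  have hOP : O ⊆ P := by
    intro x hx
    obtain ⟨r, hr, rfl⟩ := Finset.mem_image.1 hx
    obtain ⟨g1, g2, g3, g4, _⟩ := gtp96 (hT hr)
    exact hM (h1 r hr (Finset.mem_inter.2 ⟨g4, Finset.mem_union_left _ g1⟩))
  have hTc : T.card ≤ ∑ x ∈ O, (s.own Y x).card := by
    have h3 : T ⊆ (O.sigma fun x => s.own Y x).image (fun z => (z.1, z.2)) := by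
      intro r hr
      rw [Finset.mem_image]
      exact ⟨⟨r.1, r.2⟩, Finset.mem_sigma.2 ⟨Finset.mem_image_of_mem _ hr, mem_own96 (hT hr)⟩, rfl⟩
    refine (Finset.card_le_card h3).trans (Finset.card_image_le.trans ?_)
    rw [Finset.card_sigma]
  have hdeg : ∀ x ∈ O, 5 * (s.own Y x).card ≤
      8 * ((P.filter fun y => (s.QG (Y ∪ Z)).Adj x y).card + 1) := by
    intro x hx
    obtain ⟨r, hr, rfl⟩ := Finset.mem_image.1 hx
    exact deg96 s Λ D η q κ hs Y Z P M₁ hY hZ hM r (hT hr) (h2 r hr)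
  have hE : ∑ x ∈ P, (P.filter fun y => (s.QG (Y ∪ Z)).Adj x y).card =
      ePairs (s.QG (Y ∪ Z)) P P := by
    unfold ePairs
    rw [Finset.card_filter, Finset.sum_product]
    refine Finset.sum_congr rfl (fun x _ => ?_)
    rw [Finset.card_filter]
  calc 5 * T.card ≤ 5 * ∑ x ∈ O, (s.own Y x).card := Nat.mul_le_mul_left _ hTc
    _ = ∑ x ∈ O, 5 * (s.own Y x).card := by rw [Finset.mul_sum]
    _ ≤ ∑ x ∈ O, 8 * ((P.filter fun y => (s.QG (Y ∪ Z)).Adj x y).card + 1) :=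
        Finset.sum_le_sum hdeg
    _ ≤ ∑ x ∈ P, 8 * ((P.filter fun y => (s.QG (Y ∪ Z)).Adj x y).card + 1) :=
        Finset.sum_le_sum_of_subset hOP
    _ = 8 * (ePairs (s.QG (Y ∪ Z)) P P + P.card) := by
        rw [← Finset.mul_sum, Finset.sum_add_distrib, hE]
        simp

end Pool.Agent.Helper35.PM
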