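import Pool.Agent.Helper96.PM.Pairs

/-!
# Project PM, module PM-23: the choice of a leaf
-/

set_option autoImplicit false

namespace Pool.Agent.Helper35.PM

open Finset
open scoped Classical

/-- The statement of the leaf lemma. -/
def LeafStatement96 (κ : ℕ) : Prop :=
  ∃ C : ℕ, ∀ (V : Type) [Fintype V] (Q : SimpleGraph V) (X : Finset V),
    ∃ (n : ℕ) (P M : Fin n → Finset V) (Exc : Finset (V × V)),
      (∀ i, M i ⊆ P i ∧ P i ⊆ X) ∧
      (∀ i X₁ X₂, IsSep Q X X₁ X₂ → (X₁ ∩ X₂).card < κ → P i ⊆ X₁ ∨ P i ⊆ X₂) ∧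
      (∀ i j, i ≠ j → Disjoint (M i) (M j)) ∧
      Exc.card ≤ C * X.card ∧ ∑ i, (P i).card ≤ C * X.card ∧
      ∀ x ∈ X, ∀ y ∈ X, x ≠ y → ¬ Sepd κ Q X x y → (x, y) ∉ Exc → ∃ i, x ∈ M i ∧ y ∈ M i

/-- Rows of a good triple are not separated from the owner. -/
theorem not_sepd96 {V : Type} {s : Sys V} {κ : ℕ} {Y Z : Finset V} {r : V × V}
    (h : r ∈ s.GTP κ Y Z) (hX : Y ∪ Z ⊆ s.B) {v : V} (hv : v ∈ s.N r.2 ∩ (Y ∪ Z))
    (hne : v ≠ r.1) : ¬ Sepd κ (s.QG (Y ∪ Z)) (Y ∪ Z) r.1 v := by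
  obtain ⟨g1, g2, g3, g4, g5, g6, g7, g8, g9, g10, g11⟩ := gtp96 h
  intro hsep
  apply g11
  have hx : r.1 ∈ s.N r.2 ∩ (Y ∪ Z) := Finset.mem_inter.2 ⟨g4, Finset.mem_union_left _ g1⟩
  -- the third row
  have h1 : (((s.N r.2 ∩ (Y ∪ Z)).erase r.1).erase v).card = 1 := by
    rw [Finset.card_erase_of_mem (Finset.mem_erase.2 ⟨hne, hv⟩), Finset.card_erase_of_mem hx, g5]
  obtain ⟨w, hw⟩ := Finset.card_eq_one.1 h1
  have hw' : w ∈ ((s.N r.2 ∩ (Y ∪ Z)).erase r.1).erase v := by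
    rw [hw]; exact Finset.mem_singleton_self _
  rw [Finset.mem_erase, Finset.mem_erase] at hw'
  obtain ⟨hwv, hwx, hwm⟩ := hw'
  have hwX : w ∈ Y ∪ Z := (Finset.mem_inter.1 hwm).2
  have hins : insert w ((Y ∪ Z).erase w) = Y ∪ Z := Finset.insert_erase hwX
  have hNe : s.N r.2 ∩ (Y ∪ Z).erase w = (s.N r.2 ∩ (Y ∪ Z)).erase w := by
    ext z
    simp only [Finset.mem_inter, Finset.mem_erase]
    tauto
  refine ⟨w, hwm, ?_⟩
  unfold Sys.Bad
  rw [Finset.mem_filter, Finset.mem_product]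
  have hx' : r.1 ∈ s.N r.2 ∩ (Y ∪ Z).erase w := by
    rw [hNe]; exact Finset.mem_erase.2 ⟨Ne.symm hwx, hx⟩
  have hv' : v ∈ s.N r.2 ∩ (Y ∪ Z).erase w := by
    rw [hNe]; exact Finset.mem_erase.2 ⟨Ne.symm hwv, hv⟩
  refine ⟨⟨?_, ?_⟩, (Finset.mem_inter.1 hwm).1, ?_, ?_⟩
  · unfold Sys.Act
    rw [Finset.mem_filter]
    refine ⟨g2, ?_, ?_, r.1, hx', g3⟩
    · rw [hNe, Finset.card_erase_of_mem hwm, g5]
    · intro z hz
      have hz2 := (Finset.mem_inter.1 hz).2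
      rw [hNe] at hz
      exact free96 (g6 (Finset.mem_of_mem_erase hz)) (Finset.erase_subset _ _) hz2
  · exact Finset.mem_sdiff.2 ⟨hX hwX, fun h' => (Finset.mem_erase.1 h').1 rfl⟩
  · simp only
    rw [hins]
    exact g6
  · simp only
    rw [hins]
    exact ⟨r.1, hx', v, hv', hsep⟩

theorem not_sepd_of_adj96 {V : Type} {κ : ℕ} {Q : SimpleGraph V} {X : Finset V} {x y : V}
    (h : Q.Adj x y) : ¬ Sepd κ Q X x y := by
  rintro ⟨X₁, X₂, h1, _, h3, h4⟩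
  exact h1.2 x h3 y h4 h

/-- Triples with an exceptional pair. -/
def Exc96 {V : Type} (s : Sys V) (Y Z : Finset V) (Exc : Finset (V × V)) (r : V × V) : Prop :=
  ∃ v ∈ s.N r.2 ∩ (Y ∪ Z), v ≠ r.1 ∧ (r.1, v) ∈ Exc

theorem leaf_choice96 (κ : ℕ) (hleaf : LeafStatement96 κ) (M' : ℝ) (hM' : 0 < M') :
    ∃ M : ℝ, 0 < M ∧
    ∀ (V : Type) [Fintype V] (s : Sys V) (Λ D η : ℝ) (q : ℕ), s.OK Λ D η q →
      ∀ Y ⊆ s.B, ∀ Z ⊆ s.B \ Y, M * (Y ∪ Z).card < (s.GTP κ Y Z).card →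
        ∃ (P M₁ : Finset V) (T : Finset (V × V)), M₁ ⊆ P ∧ P ⊆ Y ∪ Z ∧ T ⊆ s.GTP κ Y Z ∧
          (∀ X₁ X₂, IsSep (s.QG (Y ∪ Z)) (Y ∪ Z) X₁ X₂ → (X₁ ∩ X₂).card < κ →
            P ⊆ X₁ ∨ P ⊆ X₂) ∧
          (∀ r ∈ T, s.N r.2 ∩ (Y ∪ Z) ⊆ M₁) ∧
          (∀ r ∈ T, 8 * (((s.own Y r.1) ∩ s.Act (Y ∪ Z)).filter fun a =>
            ¬ s.N a ∩ (Y ∪ Z) ⊆ M₁).card ≤ (s.own Y r.1).card) ∧
          M' * P.card < T.card := by
  obtain ⟨C, hC⟩ := hleaf
  refine ⟨(C + 1) * (M' + 9), by positivity, ?_⟩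
  intro V _ s Λ D η q hs Y hY Z hZ hbig
  obtain ⟨n, P, M, Exc, hMP, hsepP, hdis, hExc, hPs, hleafm⟩ := hC V (s.QG (Y ∪ Z)) (Y ∪ Z)
  have hXB : Y ∪ Z ⊆ s.B := Finset.union_subset hY (hZ.trans Finset.sdiff_subset)
  set exc : V → ℕ := fun x => (Exc.filter fun p => p.1 = x).card with hexc
  set R1 := (s.GTP κ Y Z).filter fun r => Exc96 s Y Z Exc r with hR1
  set R2 := (s.GTP κ Y Z).filter fun r => (s.own Y r.1).card < 8 * exc r.1 with hR2
  set T0 := ((s.GTP κ Y Z) \ R1) \ R2 with hT0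
  have hR1c : R1.card ≤ Exc.card := by
    have hch : ∀ r : V × V, ∃ v, r ∈ R1 → v ∈ s.N r.2 ∩ (Y ∪ Z) ∧ v ≠ r.1 ∧ (r.1, v) ∈ Exc := by
      intro r
      by_cases h : r ∈ R1
      · obtain ⟨v, h1, h2, h3⟩ := (Finset.mem_filter.1 h).2
        exact ⟨v, fun _ => ⟨h1, h2, h3⟩⟩
      · exact ⟨r.1, fun h' => absurd h' h⟩
    choose v hv using hch
    apply Finset.card_le_card_of_injOn (fun r => (r.1, v r))
    · intro r hr
      exact (hv r hr).2.2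
    · intro r hr r' hr' h
      simp only [Prod.mk.injEq] at h
      obtain ⟨e1, e2, e3⟩ := hv r hr
      obtain ⟨f1, f2, f3⟩ := hv r' hr'
      obtain ⟨_, _, g3, _, _, _, _, g8, _⟩ := gtp96 (Finset.mem_filter.1 (Finset.mem_coe.1 hr)).1
      obtain ⟨_, _, k3, _, _, _, _, k8, _⟩ := gtp96 (Finset.mem_filter.1 (Finset.mem_coe.1 hr')).1
      by_contra hne
      have ha : r.2 ≠ r'.2 := fun h2 => hne (Prod.ext h.1 h2)
      rw [← h.1] at k3
      rw [← h.2] at f1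
      have h3 := g8 r.2 g3 r'.2 k3 ha
      rw [Finset.mem_inter] at e1 f1
      exact e2 (Finset.mem_singleton.1 (h3
        (Finset.mem_inter.2 ⟨Finset.mem_inter.2 ⟨e1.1, f1.1⟩, e1.2⟩)))
  have hR2c : R2.card ≤ 8 * Exc.card := by
    have h1 : R2 ⊆ ((Y.filter fun x => (s.own Y x).card < 8 * exc x).sigma
        fun x => s.own Y x).image (fun z => (z.1, z.2)) := by
      intro r hr
      have hr' := Finset.mem_filter.1 hr
      rw [Finset.mem_image]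
      exact ⟨⟨r.1, r.2⟩, Finset.mem_sigma.2 ⟨Finset.mem_filter.2 ⟨(gtp96 hr'.1).1, hr'.2⟩,
        mem_own96 hr'.1⟩, rfl⟩
    refine (Finset.card_le_card h1).trans (Finset.card_image_le.trans ?_)
    rw [Finset.card_sigma]
    calc ∑ x ∈ Y.filter (fun x => (s.own Y x).card < 8 * exc x), (s.own Y x).card
        ≤ ∑ x ∈ Y.filter (fun x => (s.own Y x).card < 8 * exc x), 8 * exc x :=
          Finset.sum_le_sum (fun x hx => (Finset.mem_filter.1 hx).2.le)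
      _ ≤ ∑ x ∈ (Finset.univ : Finset V), 8 * exc x :=
          Finset.sum_le_sum_of_subset (Finset.subset_univ _)
      _ = 8 * ∑ x ∈ (Finset.univ : Finset V), exc x := by rw [Finset.mul_sum]
      _ = 8 * Exc.card := by
          congr 1
          exact (Finset.card_eq_sum_card_fiberwise (f := fun p : V × V => p.1)
            (s := Exc) (t := Finset.univ) (fun _ _ => Finset.mem_coe.2 (Finset.mem_univ _))).symm
  have hT0c : (s.GTP κ Y Z).card ≤ T0.card + R1.card + R2.card := by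
    have h3 := Finset.le_card_sdiff R2 ((s.GTP κ Y Z) \ R1)
    have h4 := Finset.le_card_sdiff R1 (s.GTP κ Y Z)
    rw [← hT0] at h3
    omega
  have hT0G : T0 ⊆ s.GTP κ Y Z := Finset.sdiff_subset.trans Finset.sdiff_subset
  have hT0R1 : ∀ r ∈ T0, ∀ v ∈ s.N r.2 ∩ (Y ∪ Z), v ≠ r.1 → (r.1, v) ∉ Exc := by
    intro r hr v hv hne hcon
    have h1 := (Finset.mem_sdiff.1 (Finset.mem_sdiff.1 hr).1).2
    apply h1
    rw [hR1, Finset.mem_filter]
    exact ⟨hT0G hr, v, hv, hne, hcon⟩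
  have hT0R2 : ∀ r ∈ T0, 8 * exc r.1 ≤ (s.own Y r.1).card := by
    intro r hr
    by_contra hcon
    have h1 := (Finset.mem_sdiff.1 hr).2
    apply h1
    rw [hR2, Finset.mem_filter]
    exact ⟨hT0G hr, by omega⟩
  -- the leaf of a triple
  have huniq : ∀ x i j, x ∈ M i → x ∈ M j → i = j := by
    intro x i j hi hj
    by_contra hne
    exact Finset.disjoint_left.1 (hdis i j hne) hi hj
  have hleaf' : ∀ r ∈ T0, ∃ i, s.N r.2 ∩ (Y ∪ Z) ⊆ M i := by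
    intro r hr
    obtain ⟨g1, g2, g3, g4, g5, g6, g7, g8, g9, g10, g11⟩ := gtp96 (hT0G hr)
    have hx : r.1 ∈ s.N r.2 ∩ (Y ∪ Z) := Finset.mem_inter.2 ⟨g4, Finset.mem_union_left _ g1⟩
    have hv : ∀ v ∈ s.N r.2 ∩ (Y ∪ Z), v ≠ r.1 → ∃ i, r.1 ∈ M i ∧ v ∈ M i := by
      intro v hv hne
      exact hleafm r.1 (Finset.mem_inter.1 hx).2 v (Finset.mem_inter.1 hv).2 (Ne.symm hne)
        (not_sepd96 (hT0G hr) hXB hv hne) (hT0R1 r hr v hv hne)
    have hne : ((s.N r.2 ∩ (Y ∪ Z)).erase r.1).Nonempty := by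
      rw [← Finset.card_pos, Finset.card_erase_of_mem hx, g5]
      norm_num
    obtain ⟨v0, hv0⟩ := hne
    rw [Finset.mem_erase] at hv0
    obtain ⟨i, hi1, hi2⟩ := hv v0 hv0.2 hv0.1
    refine ⟨i, fun z hz => ?_⟩
    by_cases hzx : z = r.1
    · rw [hzx]; exact hi1
    · obtain ⟨j, hj1, hj2⟩ := hv z hz hzx
      rw [huniq r.1 i j hi1 hj1]
      exact hj2
  set Ti : Fin n → Finset (V × V) := fun i => T0.filter fun r => s.N r.2 ∩ (Y ∪ Z) ⊆ M i with hTi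
  have hTsum : T0.card ≤ ∑ i, (Ti i).card := by
    have h1 : T0 ⊆ Finset.univ.biUnion Ti := by
      intro r hr
      obtain ⟨i, hi⟩ := hleaf' r hr
      exact Finset.mem_biUnion.2 ⟨i, Finset.mem_univ _, Finset.mem_filter.2 ⟨hr, hi⟩⟩
    exact (Finset.card_le_card h1).trans Finset.card_biUnion_le
  obtain ⟨i, _, hi⟩ : ∃ i ∈ (Finset.univ : Finset (Fin n)), M' * (P i).card < (Ti i).card := by
    apply Finset.exists_lt_of_sum_lt
    rw [← Finset.mul_sum]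
    have e1 : ((∑ i, (P i).card : ℕ) : ℝ) ≤ C * (Y ∪ Z).card := by exact_mod_cast hPs
    have e2 : (Exc.card : ℝ) ≤ C * (Y ∪ Z).card := by exact_mod_cast hExc
    have e3 : ((s.GTP κ Y Z).card : ℝ) ≤ T0.card + R1.card + R2.card := by exact_mod_cast hT0c
    have e4 : (R1.card : ℝ) ≤ Exc.card := by exact_mod_cast hR1c
    have e5 : (R2.card : ℝ) ≤ 8 * Exc.card := by exact_mod_cast hR2c
    have e6 : (T0.card : ℝ) ≤ ((∑ i, (Ti i).card : ℕ) : ℝ) := by exact_mod_cast hTsum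
    have e7 : M' * ((∑ i, (P i).card : ℕ) : ℝ) ≤ M' * (C * (Y ∪ Z).card) :=
      mul_le_mul_of_nonneg_left e1 hM'.le
    have e8 : (0 : ℝ) ≤ ((Y ∪ Z).card : ℝ) := Nat.cast_nonneg _
    push_cast at e6 e7 ⊢
    nlinarith
  refine ⟨P i, M i, Ti i, (hMP i).1, (hMP i).2, (Finset.filter_subset _ _).trans hT0G,
    hsepP i, ?_, ?_, hi⟩
  · intro r hr
    exact (Finset.mem_filter.1 hr).2
  · intro r hr
    have hr0 := (Finset.mem_filter.1 hr).1
    have hrM := (Finset.mem_filter.1 hr).2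
    obtain ⟨g1, g2, g3, g4, g5, g6, g7, g8, g9, g10, g11⟩ := gtp96 (hT0G hr0)
    have hx : r.1 ∈ s.N r.2 ∩ (Y ∪ Z) := Finset.mem_inter.2 ⟨g4, Finset.mem_union_left _ g1⟩
    have hxM := hrM hx
    refine le_trans (Nat.mul_le_mul_left 8 ?_) (hT0R2 r hr0)
    set S := ((s.own Y r.1) ∩ s.Act (Y ∪ Z)).filter fun a => ¬ s.N a ∩ (Y ∪ Z) ⊆ M i with hS
    have hSf : ∀ a' : V, ∃ y, a' ∈ S → y ≠ r.1 ∧ y ∈ s.N a' ∩ (Y ∪ Z) ∧ (r.1, y) ∈ Exc ∧
        a' ∈ s.S r.1 := by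
      intro a'
      by_cases h : a' ∈ S
      · rw [hS, Finset.mem_filter, Finset.mem_inter] at h
        obtain ⟨⟨ho, hact⟩, hnot⟩ := h
        have hoS : a' ∈ s.S r.1 := (Finset.mem_filter.1 ho).2
        have hxN : r.1 ∈ s.N a' := (hs.own r.1 (hY g1) a' hoS).2.1
        unfold Sys.Act at hact
        have hact' := Finset.mem_filter.1 hact
        have hxX : r.1 ∈ s.N a' ∩ (Y ∪ Z) := Finset.mem_inter.2 ⟨hxN, Finset.mem_union_left _ g1⟩
        have h1 : ((s.N a' ∩ (Y ∪ Z)).erase r.1).card = 1 := by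
          rw [Finset.card_erase_of_mem hxX, hact'.2.1]
        obtain ⟨y, hy⟩ := Finset.card_eq_one.1 h1
        have hyE : y ∈ (s.N a' ∩ (Y ∪ Z)).erase r.1 := by
          rw [hy]; exact Finset.mem_singleton_self _
        rw [Finset.mem_erase] at hyE
        have hpair : s.N a' ∩ (Y ∪ Z) = {r.1, y} := by
          rw [← Finset.insert_erase hxX, hy]
        have hadj : (s.QG (Y ∪ Z)).Adj r.1 y := ⟨Ne.symm hyE.1, a', hact, hpair⟩
        refine ⟨y, fun _ => ⟨hyE.1, hyE.2, ?_, hoS⟩⟩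
        by_contra hnE
        obtain ⟨j, hj1, hj2⟩ := hleafm r.1 (Finset.mem_inter.1 hxX).2 y (Finset.mem_inter.1 hyE.2).2
          (Ne.symm hyE.1) (not_sepd_of_adj96 hadj) hnE
        rw [← huniq r.1 i j hxM hj1] at hj2
        apply hnot
        rw [hpair]
        intro z hz
        rw [Finset.mem_insert, Finset.mem_singleton] at hz
        rcases hz with rfl | rfl
        · exact hxM
        · exact hj2
      · exact ⟨r.1, fun h' => absurd h' h⟩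
    choose y hy using hSf
    rw [hexc]
    simp only
    apply Finset.card_le_card_of_injOn (fun a' => (r.1, y a'))
    · intro a' ha'
      exact Finset.mem_coe.2 (Finset.mem_filter.2 ⟨(hy a' ha').2.2.1, rfl⟩)
    · intro a1 h1 a2 h2 h12
      simp only [Prod.mk.injEq, true_and] at h12
      obtain ⟨e1, e2, e3, e4⟩ := hy a1 h1
      obtain ⟨f1, f2, f3, f4⟩ := hy a2 h2
      by_contra hne
      rw [← h12] at f2
      rw [Finset.mem_inter] at e2 f2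
      have h3 := g8 a1 e4 a2 f4 hne
        (Finset.mem_inter.2 ⟨Finset.mem_inter.2 ⟨e2.1, f2.1⟩, e2.2⟩)
      exact e1 (Finset.mem_singleton.1 h3)

end Pool.Agent.Helper35.PM
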